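import Pool.Agent.Helper16.NR.Stmts2
import Pool.Agent.Helper13.Hall.Divisor

set_option autoImplicit false

/-! # RED: most tuples reduce by a bounded factor -/

namespace Pool.Helper16.NR

theorem red_sum_inv (W N : ℕ) (hW : W ≠ 0) :
    ∑ w ∈ Finset.Ioc W N, (((w : ℝ)) ^ 2)⁻¹ ≤ ((W : ℝ))⁻¹ := by
  by_cases h : W ≤ N
  · have h1 := sum_Ioc_inv_sq_le_sub (α := ℝ) hW h
    have h2 : (0 : ℝ) ≤ ((N : ℝ))⁻¹ := by positivity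
    linarith
  · rw [Finset.Ioc_eq_empty (by omega), Finset.sum_empty]
    positivity

theorem red_sum_id (W N : ℕ) : ∑ w ∈ Finset.Ioc W N, (w : ℝ) ≤ (N : ℝ) ^ 2 := by
  calc ∑ w ∈ Finset.Ioc W N, (w : ℝ) ≤ ∑ _w ∈ Finset.Ioc W N, (N : ℝ) := by
        refine Finset.sum_le_sum fun w hw => ?_
        exact_mod_cast (Finset.mem_Ioc.1 hw).2
    _ = ((N - W : ℕ) : ℝ) * N := by
        rw [Finset.sum_const, Nat.card_Ioc, nsmul_eq_mul]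
    _ ≤ (N : ℝ) * N := by
        refine mul_le_mul_of_nonneg_right ?_ (by positivity)
        exact_mod_cast Nat.sub_le N W
    _ = (N : ℝ) ^ 2 := by ring

/-- one term -/
theorem red_term {C1 : ℝ} (hC1 : 1 ≤ C1)
    (hdiv : ∀ n : ℕ, ((n.divisors.card : ℕ) : ℝ) ≤ C1 * (n : ℝ) ^ ((1 : ℝ) / 4))
    (m w : ℕ) (hw : 1 ≤ w) :
    (m : ℝ) ^ 4 * ((m : ℝ) ^ 3 / (w : ℝ) ^ 4 + 1) *
      (110 * 55 * (2 * m) * ((w ^ 4).divisors.card : ℝ)) ≤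
    12100 * C1 * (m : ℝ) ^ 8 * ((w : ℝ) ^ 2)⁻¹ + 12100 * C1 * (m : ℝ) ^ 5 * w := by
  have hw0 : (1 : ℝ) ≤ w := by exact_mod_cast hw
  have hwp : (0 : ℝ) < w := by linarith
  have h1 : (((w ^ 4).divisors.card : ℕ) : ℝ) ≤ C1 * w := by
    have h := hdiv (w ^ 4)
    have h2 : ((w ^ 4 : ℕ) : ℝ) ^ ((1 : ℝ) / 4) = (w : ℝ) := by
      push_cast
      rw [← Real.rpow_natCast (w : ℝ) 4, ← Real.rpow_mul hwp.le]
      norm_num
    rwa [h2] at h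
  have h3 : (0 : ℝ) ≤ (m : ℝ) ^ 4 * ((m : ℝ) ^ 3 / (w : ℝ) ^ 4 + 1) := by positivity
  calc (m : ℝ) ^ 4 * ((m : ℝ) ^ 3 / (w : ℝ) ^ 4 + 1) *
      (110 * 55 * (2 * m) * ((w ^ 4).divisors.card : ℝ))
      ≤ (m : ℝ) ^ 4 * ((m : ℝ) ^ 3 / (w : ℝ) ^ 4 + 1) * (110 * 55 * (2 * m) * (C1 * w)) := by
        refine mul_le_mul_of_nonneg_left ?_ h3
        refine mul_le_mul_of_nonneg_left h1 (by positivity)
    _ = 12100 * C1 * (m : ℝ) ^ 8 * ((w : ℝ) ^ 3)⁻¹ + 12100 * C1 * (m : ℝ) ^ 5 * w := by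
        field_simp
        ring
    _ ≤ 12100 * C1 * (m : ℝ) ^ 8 * ((w : ℝ) ^ 2)⁻¹ + 12100 * C1 * (m : ℝ) ^ 5 * w := by
        have h4 : ((w : ℝ) ^ 3)⁻¹ ≤ ((w : ℝ) ^ 2)⁻¹ := by
          apply inv_anti₀ (by positivity)
          exact pow_le_pow_right₀ hw0 (by norm_num)
        have h5 : (0 : ℝ) ≤ 12100 * C1 * (m : ℝ) ^ 8 := by positivity
        have h6 := mul_le_mul_of_nonneg_left h4 h5
        linarith

theorem st_RED (h1 : ST_WSV) (h2 : ST_SZ) : ST_RED := by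
  classical
  obtain ⟨C1, hC1, hdiv⟩ := Pool.Agent.Helper13.Hall.divisor_bound (ε := 1 / 4) (by norm_num)
  obtain ⟨C, hC, hsz⟩ := h2
  refine ⟨⌈8 * 12100 * C1⌉₊ + 1, by omega, ⌈8 * 12100 * C1 * (C : ℝ) ^ 2⌉₊ + 1, ?_⟩
  intro m hm
  obtain ⟨W, hWdef⟩ : ∃ W, W = ⌈8 * 12100 * C1⌉₊ + 1 := ⟨_, rfl⟩
  rw [← hWdef]
  have hm1 : 1 ≤ m := by omega
  have hmR : 8 * 12100 * C1 * (C : ℝ) ^ 2 ≤ m := by
    have h3 := Nat.le_ceil (8 * 12100 * C1 * (C : ℝ) ^ 2)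
    have h4 : ((⌈8 * 12100 * C1 * (C : ℝ) ^ 2⌉₊ + 1 : ℕ) : ℝ) ≤ m := by exact_mod_cast hm
    push_cast at h4
    linarith
  have hWR : 8 * 12100 * C1 ≤ W := by
    have h3 := Nat.le_ceil (8 * 12100 * C1)
    rw [hWdef]
    push_cast
    linarith
  have hW0 : W ≠ 0 := by omega
  have hsub : (TT m).filter (fun t => ∃ w : ℕ, W < w ∧ (w : ℤ) ^ 4 ∣ tA t ∧ (w : ℤ) ^ 6 ∣ tB t) ⊆
      (Finset.Ioc W (C * m)).biUnion (fun w => (TT m).filter (fun t => (w : ℤ) ^ 4 ∣ tA t)) := by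
    intro t ht
    rw [Finset.mem_filter] at ht
    obtain ⟨htT, w, hWw, hwA, hwB⟩ := ht
    rw [Finset.mem_biUnion]
    refine ⟨w, ?_, Finset.mem_filter.2 ⟨htT, hwA⟩⟩
    rw [Finset.mem_Ioc]
    refine ⟨hWw, ?_⟩
    obtain ⟨-, -, hB, hB0, -⟩ := hsz m hm1 t htT
    have h3 : (w : ℤ) ^ 6 ≤ |tB t| := Int.le_of_dvd (abs_pos.2 hB0) ((dvd_abs _ _).2 hwB)
    by_contra hcon
    have hlt : C * m < w := by omega
    have h4 : (C * m) ^ 6 < w ^ 6 := Nat.pow_lt_pow_left hlt (by norm_num)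
    have h5 : C * m ^ 6 ≤ (C * m) ^ 6 := by
      rw [mul_pow]
      exact Nat.mul_le_mul_right _ (Nat.le_self_pow (by norm_num) C)
    have h6 : (w : ℤ) ^ 6 ≤ (C : ℤ) * (m : ℤ) ^ 6 := h3.trans hB
    have h7 : w ^ 6 ≤ C * m ^ 6 := by exact_mod_cast h6
    omega
  have hcard : ((((TT m).filter (fun t => ∃ w : ℕ, W < w ∧ (w : ℤ) ^ 4 ∣ tA t ∧
      (w : ℤ) ^ 6 ∣ tB t)).card : ℕ) : ℝ) ≤
      ∑ w ∈ Finset.Ioc W (C * m), ((((TT m).filter (fun t => (w : ℤ) ^ 4 ∣ tA t)).card : ℕ) : ℝ) := by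
    have h3 := (Finset.card_le_card hsub).trans Finset.card_biUnion_le
    exact_mod_cast h3
  refine hcard.trans ?_
  have hterm : ∀ w ∈ Finset.Ioc W (C * m),
      ((((TT m).filter (fun t => (w : ℤ) ^ 4 ∣ tA t)).card : ℕ) : ℝ) ≤
      12100 * C1 * (m : ℝ) ^ 8 * ((w : ℝ) ^ 2)⁻¹ + 12100 * C1 * (m : ℝ) ^ 5 * w := by
    intro w hw
    have hw1 : 1 ≤ w := by
      have := (Finset.mem_Ioc.1 hw).1
      omega
    exact (h1 m w hm1 hw1).trans (red_term hC1 hdiv m w hw1)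
  refine (Finset.sum_le_sum hterm).trans ?_
  rw [Finset.sum_add_distrib, ← Finset.mul_sum, ← Finset.mul_sum]
  have hs1 := red_sum_inv W (C * m) hW0
  have hs2 := red_sum_id W (C * m)
  have hWp : (0 : ℝ) < W := by
    have : 0 < W := Nat.pos_of_ne_zero hW0
    exact_mod_cast this
  have hmp : (0 : ℝ) < m := by exact_mod_cast hm1
  have ha : 12100 * C1 * (m : ℝ) ^ 8 * ∑ w ∈ Finset.Ioc W (C * m), ((w : ℝ) ^ 2)⁻¹ ≤
      (m : ℝ) ^ 8 / 8 := by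
    calc 12100 * C1 * (m : ℝ) ^ 8 * ∑ w ∈ Finset.Ioc W (C * m), ((w : ℝ) ^ 2)⁻¹
        ≤ 12100 * C1 * (m : ℝ) ^ 8 * ((W : ℝ))⁻¹ :=
          mul_le_mul_of_nonneg_left hs1 (by positivity)
      _ ≤ (m : ℝ) ^ 8 / 8 := by
          rw [← div_eq_mul_inv, div_le_div_iff₀ hWp (by norm_num)]
          have h8 : (0 : ℝ) ≤ (m : ℝ) ^ 8 := by positivity
          nlinarith [mul_le_mul_of_nonneg_left hWR h8]
  have hb : 12100 * C1 * (m : ℝ) ^ 5 * ∑ w ∈ Finset.Ioc W (C * m), (w : ℝ) ≤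
      (m : ℝ) ^ 8 / 8 := by
    calc 12100 * C1 * (m : ℝ) ^ 5 * ∑ w ∈ Finset.Ioc W (C * m), (w : ℝ)
        ≤ 12100 * C1 * (m : ℝ) ^ 5 * ((C * m : ℕ) : ℝ) ^ 2 :=
          mul_le_mul_of_nonneg_left hs2 (by positivity)
      _ = (8 * 12100 * C1 * (C : ℝ) ^ 2) * (m : ℝ) ^ 7 / 8 := by
          push_cast
          ring
      _ ≤ (m : ℝ) * (m : ℝ) ^ 7 / 8 := by
          have h8 : (0 : ℝ) ≤ (m : ℝ) ^ 7 := by positivity
          have h9 := mul_le_mul_of_nonneg_right hmR h8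
          linarith
      _ = (m : ℝ) ^ 8 / 8 := by ring
  linarith

end Pool.Helper16.NR
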